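import Pool.Agent.Q27.BG2.Sep

/-!
# Schemes with fibres of bounded dimension and trilinear forms, for separated schemes
-/

set_option autoImplicit false

namespace Pool.Agent.Q27.BG2

open MvPolynomial CategoryTheory AlgebraicGeometry TensorProduct NumberField
open Pool.Agent.Y116.UV Pool.Agent.Z125.UN Q54.CU Q54.ZE Pool.Agent.H920R2
open Pool.Agent.Q27.BG

variable {sep : Prop} {P : Sch ℤ → Prop} (hP : Bnd sep P)

include hP

/-- from schemes with fibres of dimension at most `n` to closed subschemes of the affine space of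
dimension `n + 1` -/
lemma fib_to_closed_sep {n : ℕ}
    (h : ∀ X : Sch ℤ, FT sep X → FibLE n (X := X.left) X.hom → P X)
    (I : Ideal (MvPolynomial (Fin (n + 1)) ℤ)) :
    P (aff ℤ (MvPolynomial (Fin (n + 1)) ℤ ⧸ I)) := by
  -- rings
  have hR : ∀ (C : Type) [CommRing C] [Algebra.FiniteType ℤ C],
      (∀ (K : Type) [Field K], ringKrullDim (C ⊗[ℤ] K) ≤ n) →
      ∀ inst : Algebra ℤ C, P (@aff ℤ C _ _ inst) := by
    intro C _ _ hC inst
    obtain rfl : inst = Ring.toIntAlgebra C := Subsingleton.elim _ _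
    exact h _ (ft_aff sep) ((fib_affine C).2 hC)
  have hfin : ∀ (C : Type) [CommRing C] (inst : Algebra ℤ C),
      @Algebra.FiniteType ℤ C _ _ inst → @Algebra.FiniteType ℤ C _ _ (Ring.toIntAlgebra C) := by
    intro C _ inst hC
    rwa [Subsingleton.elim (Ring.toIntAlgebra C) inst]
  refine noeth hP (fun B _ _ hB => p_empty hP B hB) fun p hp => ?_
  let A := MvPolynomial (Fin (n + 1)) ℤ ⧸ I
  let B := A ⧸ p
  let φ : MvPolynomial (Fin (n + 1)) ℤ →+* B := (Ideal.Quotient.mk p).comp (Ideal.Quotient.mk I)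
  have hφ : Function.Surjective φ :=
    Ideal.Quotient.mk_surjective.comp Ideal.Quotient.mk_surjective
  have hBft : @Algebra.FiniteType ℤ B _ _ (Ring.toIntAlgebra B) := hfin B _ inferInstance
  by_cases hker : ∃ f, φ f = 0 ∧ f ≠ 0
  · obtain ⟨f, hf, hf0⟩ := hker
    obtain ⟨d, hd⟩ := MvPolynomial.ne_zero_iff.1 hf0
    by_cases hm : ((f.coeff d : ℤ) : B) = 0
    · obtain ⟨q, hq⟩ := CharP.exists B
      have hq0 : q ≠ 0 := by
        rintro rfl
        have : CharZero B := CharP.charP_to_charZero B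
        exact hd (Int.cast_eq_zero.1 hm)
      have hqp : Fact q.Prime := ⟨(CharP.char_is_prime_or_zero B q).resolve_right hq0⟩
      refine ⟨1, one_ne_zero, q_away_one hP B ?_⟩
      by_cases hall : ∀ f, φ f = 0 → ∀ d, (q : ℤ) ∣ f.coeff d
      · refine q_poly_prime hP q ?_ φ hφ (CharP.cast_eq_zero B q) hall
        have : Algebra.FiniteType ℤ (ZMod q) :=
          Algebra.FiniteType.of_surjective (Algebra.ofId ℤ (ZMod q)) (ZMod.intCast_surjective)
        refine hR (ZMod q) (fun K _ => ?_) _
        have h1 : Function.Surjective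
            (Algebra.TensorProduct.includeRight : K →ₐ[ℤ] ZMod q ⊗[ℤ] K) := by
          intro z
          induction z using TensorProduct.induction_on with
          | zero => exact ⟨0, map_zero _⟩
          | add x y hx hy =>
            obtain ⟨a, rfl⟩ := hx
            obtain ⟨b, rfl⟩ := hy
            exact ⟨a + b, map_add _ _ _⟩
          | tmul c a =>
            obtain ⟨c, rfl⟩ := ZMod.intCast_surjective c
            refine ⟨c • a, ?_⟩
            change (1 : ZMod q) ⊗ₜ[ℤ] (c • a) = _
            rw [← TensorProduct.smul_tmul, zsmul_one]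
        refine (ringKrullDim_le_of_surjective
          (Algebra.TensorProduct.includeRight : K →ₐ[ℤ] ZMod q ⊗[ℤ] K).toRingHom h1).trans ?_
        rw [ringKrullDim_eq_zero_of_field]
        exact_mod_cast Nat.zero_le n
      · push Not at hall
        obtain ⟨g, hg, d, hgd⟩ := hall
        have hcop : IsCoprime (g.coeff d) (q : ℤ) :=
          ((Nat.prime_iff_prime_int.1 hqp.1).irreducible.coprime_iff_not_dvd.2 hgd).symm
        obtain ⟨u, v, huv⟩ := hcop
        refine hR B (fun K _ => dim_fib φ 1 (by simp) (fun c => ?_)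
          (MvPolynomial.C u * g + MvPolynomial.C v * monomial d (q : ℤ)) ?_ d ?_ K) _
        · obtain ⟨a, rfl⟩ := hφ c
          exact ⟨0, a, by simp⟩
        · have h4 : φ (monomial d (q : ℤ)) = 0 := by
            have h5 : (monomial d (q : ℤ) : MvPolynomial (Fin (n + 1)) ℤ) =
                (q : MvPolynomial (Fin (n + 1)) ℤ) * monomial d 1 := by
              rw [← nsmul_eq_mul, ← map_nsmul]
              simp
            rw [h5, map_mul, map_natCast, CharP.cast_eq_zero, zero_mul]
          rw [map_add, map_mul, map_mul, hg, h4, mul_zero, mul_zero, add_zero]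
        · rw [coeff_add, coeff_C_mul, coeff_C_mul, coeff_monomial, if_pos rfl]
          exact huv
    · refine ⟨((f.coeff d : ℤ) : B), hm, ?_⟩
      let L := Localization.Away (((f.coeff d : ℤ) : B))
      have hu : IsUnit (algebraMap B L ((f.coeff d : ℤ) : B)) :=
        IsLocalization.Away.algebraMap_isUnit _
      rw [map_intCast] at hu
      have hLft : @Algebra.FiniteType ℤ L _ _ (Ring.toIntAlgebra L) :=
        hfin L _ (Algebra.FiniteType.trans (S := B) inferInstance inferInstance)
      refine hR L (fun K _ => dim_fib ((algebraMap B L).comp φ) (f.coeff d) hu (fun c => ?_) f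
        (by rw [RingHom.comp_apply, hf, map_zero]) d rfl K) _
      obtain ⟨⟨b, ⟨_, j, rfl⟩⟩, hb⟩ := IsLocalization.surj
        (Submonoid.powers (((f.coeff d : ℤ) : B))) c
      obtain ⟨a, rfl⟩ := hφ b
      refine ⟨j, a, ?_⟩
      rw [RingHom.comp_apply, ← hb, mul_comm]
      congr 1
      change ((f.coeff d : ℤ) : L) ^ j = algebraMap B L (((f.coeff d : ℤ) : B) ^ j)
      rw [map_pow, map_intCast]
  · push Not at hker
    refine ⟨1, one_ne_zero, q_away_one hP B ?_⟩
    have hinj : Function.Injective φ := by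
      rw [injective_iff_map_eq_zero]
      exact hker
    have : Algebra.FiniteType ℤ (MvPolynomial (Fin (n + 1)) ℤ) := inferInstance
    exact q_ringEquiv hP (RingEquiv.ofBijective φ ⟨hinj, hφ⟩) (hP.space (n + 1))

/-- Open parts of domains. -/
lemma domain_step_sep {n : ℕ} (h : ∀ I : Ideal (MvPolynomial (Fin (n + 1)) ℤ),
    P (aff ℤ (MvPolynomial (Fin (n + 1)) ℤ ⧸ I))) (B : Type) [CommRing B] [IsDomain B]
    [Algebra.FiniteType ℤ B] (hd : ∀ (K : Type) [Field K], ringKrullDim (B ⊗[ℤ] K) ≤ n) :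
    ∃ w : B, w ≠ 0 ∧ P (aff ℤ (Localization.Away w)) := by
  obtain ⟨x, hx⟩ := exists_coords B hd
  obtain ⟨w, hw, φ, g, h1, h2⟩ := exists_emb' x (R := ℤ) (B := B) (fun y => by
    obtain ⟨P, Q, h3, h4⟩ := hx y
    refine ⟨P, Q, ?_, ?_⟩
    · rwa [aeval_int_eq _ (Ring.toIntAlgebra _)] at h3 ⊢
    · rwa [aeval_int_eq _ (Ring.toIntAlgebra _), aeval_int_eq _ (Ring.toIntAlgebra _) x P] at h4 ⊢)
  exact ⟨w, hw, p_emb hP h φ g h1 h2⟩

/-- from closed subschemes of the affine space of dimension `n + 1` to schemes with fibres of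
dimension at most `n` -/
lemma closed_to_fib_sep {n : ℕ} (h : ∀ I : Ideal (MvPolynomial (Fin (n + 1)) ℤ),
    P (aff ℤ (MvPolynomial (Fin (n + 1)) ℤ ⧸ I))) (A : Type) [CommRing A] [inst : Algebra ℤ A]
    [Algebra.FiniteType ℤ A]
    (hA : FibLE n (Spec.map (CommRingCat.ofHom (algebraMap ℤ A)))) : P (aff ℤ A) := by
  obtain rfl : inst = Ring.toIntAlgebra A := Subsingleton.elim _ _
  rw [fib_affine] at hA
  refine noeth hP (fun B _ _ hB => p_empty hP B hB) fun p hp => ?_
  have hBft : @Algebra.FiniteType ℤ (A ⧸ p) _ _ (Ring.toIntAlgebra (A ⧸ p)) :=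
    Algebra.FiniteType.of_surjective (Ideal.Quotient.mk p).toIntAlgHom Ideal.Quotient.mk_surjective
  obtain ⟨w, hw, h1⟩ := domain_step_sep hP h (A ⧸ p) fun K _ =>
    (dim_surj (Ideal.Quotient.mk p) Ideal.Quotient.mk_surjective K).trans (hA K)
  exact ⟨w, hw, p_inst (P := P) _ _ h1⟩

/-- **Schemes with fibres of dimension at most `n` and trilinear forms with `n + 2` variables in the
third block.** -/
theorem fib_tri_sep (n : ℕ) :
    (∀ X : Sch ℤ, FT sep X → FibLE n (X := X.left) X.hom → P X) ↔
      ∀ (a b : ℕ) (T : Fin a → Fin b → Fin (n + 2) → ℤ), P (hypS T) := by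
  rw [show (∀ (a b : ℕ) (T : Fin a → Fin b → Fin (n + 2) → ℤ), P (hypS T)) ↔
    ∀ (I : Ideal (MvPolynomial (Fin (n + 1)) ℤ)), P (aff ℤ (_ ⧸ I)) from (graded hP (n + 1)).symm]
  constructor
  · exact fun h => fib_to_closed_sep hP h
  · intro h X hX hn
    refine of_affine' (P := fun X => FibLE n (X := X.left) X.hom → P X) (sep := sep) ?_ ?_ ?_ X
      hX hn
    · intro X Y hX e hPX hY
      refine hP.iso hX e (hPX ?_)
      obtain ⟨e⟩ := e
      have h1 : X.hom = e.hom.left ≫ Y.hom := (Over.w e.hom).symm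
      rw [h1]
      have : IsIso e.hom.left := inferInstanceAs (IsIso ((Over.forget _).map e.hom))
      exact FibLE.comp_open hY e.hom.left
    · intro Z X U i j hX ht hZ hU hn
      refine hP.total i j hX ht (hZ ?_) (hU ?_)
      · have h1 : Z.hom = i.left ≫ X.hom := (Over.w i).symm
        rw [h1]
        have := ht.closed
        exact FibLE.comp_closed hn i.left
      · have h1 : U.hom = j.left ≫ X.hom := (Over.w j).symm
        rw [h1]
        have := ht.opened
        exact FibLE.comp_open hn j.left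
    · intro A _ _ _ hA
      exact closed_to_fib_sep hP h A hA

/-- From affine schemes to all schemes with fibres of dimension at most `n`. -/
lemma fib_of_affine_sep {n : ℕ} (h : ∀ (A : Type) [CommRing A] [Algebra ℤ A] [Algebra.FiniteType ℤ A],
      FibLE n (Spec.map (CommRingCat.ofHom (algebraMap ℤ A))) → P (aff ℤ A)) (X : Sch ℤ)
    (hX : FT sep X) (hn : FibLE n (X := X.left) X.hom) : P X := by
  refine of_affine' (P := fun X => FibLE n (X := X.left) X.hom → P X) (sep := sep) ?_ ?_ ?_ X
    hX hn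
  · intro X Y hX e hPX hY
    refine hP.iso hX e (hPX ?_)
    obtain ⟨e⟩ := e
    have h1 : X.hom = e.hom.left ≫ Y.hom := (Over.w e.hom).symm
    rw [h1]
    have : IsIso e.hom.left := inferInstanceAs (IsIso ((Over.forget _).map e.hom))
    exact FibLE.comp_open hY e.hom.left
  · intro Z X U i j hX ht hZ hU hn
    refine hP.total i j hX ht (hZ ?_) (hU ?_)
    · have h1 : Z.hom = i.left ≫ X.hom := (Over.w i).symm
      rw [h1]
      have := ht.closed
      exact FibLE.comp_closed hn i.left
    · have h1 : U.hom = j.left ≫ X.hom := (Over.w j).symm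
      rw [h1]
      have := ht.opened
      exact FibLE.comp_open hn j.left
  · intro A _ _ _ hA
    exact h A hA

/-- From regular affine schemes to all affine schemes. -/
lemma fib_regular_sep {n : ℕ}
    (h : ∀ X : Sch ℤ, FT sep X → IsRegularSch X.left → FibLE n (X := X.left) X.hom → P X)
    (A : Type) [CommRing A] [inst : Algebra ℤ A] [Algebra.FiniteType ℤ A]
    (hA : FibLE n (Spec.map (CommRingCat.ofHom (algebraMap ℤ A)))) : P (aff ℤ A) := by
  obtain rfl : inst = Ring.toIntAlgebra A := Subsingleton.elim _ _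
  refine noeth hP (fun B _ _ hB => p_empty hP B hB) fun p hp => ?_
  have hBft : @Algebra.FiniteType ℤ (A ⧸ p) _ _ (Ring.toIntAlgebra (A ⧸ p)) :=
    Algebra.FiniteType.of_surjective (Ideal.Quotient.mk p).toIntAlgHom Ideal.Quotient.mk_surjective
  obtain ⟨w, hw, h1⟩ := exists_regular (A ⧸ p)
  have h2 : FibLE n (Spec.map (CommRingCat.ofHom (@algebraMap ℤ (A ⧸ p) _ _
      (Ring.toIntAlgebra (A ⧸ p))))) := by
    rw [fib_affine] at hA ⊢
    exact fun K _ => (dim_surj (Ideal.Quotient.mk p) Ideal.Quotient.mk_surjective K).trans (hA K)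
  refine ⟨w, hw, h _ (ft_aff sep) (reg_aff h1) (fib_away w h2 _)⟩

/-- **Schemes with fibres of dimension at most `d` and trilinear forms with `d + 2` variables in the
third block.** -/
theorem fib_main_sep (d : ℕ) : List.TFAE
    [∀ X : Sch ℤ, FT sep X → IsRegularSch X.left → FibLE d (X := X.left) X.hom → P X,
      ∀ X : Sch ℤ, FT sep X → FibLE d (X := X.left) X.hom → P X,
      ∀ (a b : ℕ) (H : Finset (Fin a × Fin b × Fin (d + 2))), P (tripS ℤ H),
      ∀ (a b c : ℕ) (T : Fin a → Fin b → Fin c → ℤ), a ≤ d + 2 ∨ b ≤ d + 2 ∨ c ≤ d + 2 →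
        P (hypS T)] := by
  tfae_have 1 → 2 := fun h => fib_of_affine_sep hP (fun A _ _ _ hA => fib_regular_sep hP h A hA)
  tfae_have 2 → 1 := fun h X hX _ hn => h X hX hn
  tfae_have 2 → 4 := by
    intro h a b c T hT
    exact of_block hP (fun a b c' hc T => to_tri hP (fib_to_closed_sep hP h) a b c' hc T) T hT
  tfae_have 4 → 3 := by
    intro h a b H
    have h1 := h a b (d + 2) (fun i j k => if (i, j, k) ∈ H then (1 : ℤ) else 0)
      (Or.inr (Or.inr le_rfl))
    unfold hypS Hyp at h1
    rw [tri_ind] at h1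
    exact h1
  tfae_have 3 → 2 := fun h => (fib_tri_sep hP d).2 fun a b T =>
    zero_one hP (fun x => ⟨x, Int.cast_id⟩) h a b T
  tfae_finish

end Pool.Agent.Q27.BG2
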