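import Pool.Agent.Q27.BG2.FibSep

/-!
# Flat integral schemes of dimension at most `d + 1`

A property with the closure properties `Bnd` which is true for the closed subschemes of the affine
space of dimension `d + 1` over the integers is true for the flat integral schemes of dimension at
most `d + 1`.
-/

set_option autoImplicit false

namespace Pool.Agent.Q27.BG2

open MvPolynomial CategoryTheory AlgebraicGeometry TensorProduct NumberField Topology
open Pool.Agent.Y116.UV Pool.Agent.Z125.UN Q54.CU Q54.ZE Pool.Agent.H920R2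
open Pool.Agent.Q27.BG

section top

open TopologicalSpace

/-- Proper closed subsets of irreducible spaces. -/
lemma dim_closed {T : Type*} [TopologicalSpace T] [IrreducibleSpace T] (Y : Set T)
    (hY : IsClosed Y) (hne : Y ≠ Set.univ) {d : ℕ} (h : topologicalKrullDim T ≤ (d + 1 : ℕ)) :
    topologicalKrullDim Y ≤ d := by
  refine iSup_le fun l => ?_
  have hi : IsInducing ((↑) : Y → T) := IsInducing.subtypeVal
  let l' : LTSeries (IrreducibleCloseds T) :=
    l.map (IrreducibleCloseds.map _ hi.continuous) (IrreducibleCloseds.map_strictMono_of_isInducing hi)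
  let top : IrreducibleCloseds T :=
    ⟨Set.univ, IrreducibleSpace.isIrreducible_univ T, isClosed_univ⟩
  have hlt : l'.last < top := by
    have h1 : (l'.last : Set T) ⊆ Y := by
      have h2 : l'.last = IrreducibleCloseds.map _ hi.continuous l.last := LTSeries.last_map _ _ _
      rw [h2, IrreducibleCloseds.coe_map]
      refine closure_minimal ?_ hY
      rintro _ ⟨y, -, rfl⟩
      exact y.2
    refine lt_of_le_of_ne (fun x _ => trivial) fun h2 => hne ?_
    rw [Set.eq_univ_iff_forall]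
    intro x
    apply h1
    rw [h2]
    trivial
  have h1 := Order.LTSeries.length_le_krullDim (l'.snoc _ hlt)
  have h2 : (l'.snoc _ hlt).length = l.length + 1 := rfl
  rw [h2] at h1
  have h3 : ((l.length + 1 : ℕ) : WithBot ℕ∞) ≤ ((d + 1 : ℕ) : WithBot ℕ∞) := h1.trans h
  have h5 : l.length + 1 ≤ d + 1 := by exact_mod_cast h3
  have h6 : l.length ≤ d := by omega
  exact_mod_cast h6

end top

/-- The fibre over the prime `p`, as a subspace. -/
def fibSet (X : Sch ℤ) (p : ℕ) : Set X.left :=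
  {x | (p : ℤ) ∈ PrimeSpectrum.asIdeal (R := ℤ) (X.hom x)}

/-- `X` has dimension at most `d + 1` and its fibres over the primes have dimension at most `d`. -/
structure FibDim (d : ℕ) (X : Sch ℤ) : Prop where
  total : topologicalKrullDim X.left ≤ (d + 1 : ℕ)
  fibre : ∀ p : ℕ, p.Prime → topologicalKrullDim (fibSet X p) ≤ d

lemma hom_apply {Z X : Sch ℤ} (i : Z ⟶ X) (z : Z.left) : Z.hom z = X.hom (i.left z) := by
  have h : i.left ≫ X.hom = Z.hom := Over.w i
  rw [← h]
  rfl

lemma FibDim.of_inducing {d : ℕ} {Z X : Sch ℤ} (h : FibDim d X) (i : Z ⟶ X)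
    (hi : IsInducing i.left) : FibDim d Z := by
  refine ⟨hi.topologicalKrullDim_le.trans h.total, fun p hp => ?_⟩
  let g : fibSet Z p → fibSet X p := fun z => ⟨i.left z.1, by
    have h1 := z.2
    change (p : ℤ) ∈ PrimeSpectrum.asIdeal (R := ℤ) (Z.hom z.1) at h1
    rw [hom_apply i] at h1
    exact h1⟩
  have hg : IsInducing g := by
    have h1 : Continuous g := Continuous.subtype_mk (hi.continuous.comp continuous_subtype_val) _
    exact IsInducing.of_comp h1 continuous_subtype_val (hi.comp IsInducing.subtypeVal)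
  exact hg.topologicalKrullDim_le.trans (h.fibre p hp)

lemma isClosed_fibSet (X : Sch ℤ) (p : ℕ) : IsClosed (fibSet X p) := by
  have h1 : fibSet X p = X.hom ⁻¹' (PrimeSpectrum.zeroLocus {(p : ℤ)}) := by
    ext x
    change (p : ℤ) ∈ PrimeSpectrum.asIdeal (R := ℤ) (X.hom x) ↔
      ({(p : ℤ)} : Set ℤ) ⊆ (PrimeSpectrum.asIdeal (R := ℤ) (X.hom x) : Set ℤ)
    rw [Set.singleton_subset_iff]
    rfl
  rw [h1]
  exact (PrimeSpectrum.isClosed_zeroLocus _).preimage X.hom.continuous

lemma fibSet_ne_univ (X : Sch ℤ) (hX : LocallyOfFiniteType X.hom) [Nonempty X.left] [Flat X.hom]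
    {p : ℕ} (hp : p.Prime) : fibSet X p ≠ Set.univ := by
  intro hcon
  obtain ⟨x⟩ := (inferInstance : Nonempty X.left)
  obtain ⟨U, hU, hxU, -⟩ := exists_isAffineOpen_mem_and_subset (X := X.left) (x := x)
    (U := ⊤) trivial
  have hUa : IsAffine (opn X U).left := hU
  have hUf : LocallyOfFiniteType (opn X U).hom := by
    change LocallyOfFiniteType (U.ι ≫ X.hom)
    infer_instance
  have hUfl : Flat (opn X U).hom := by
    change Flat (U.ι ≫ X.hom)
    infer_instance
  obtain ⟨A, i1, i2, i3, ⟨e⟩⟩ := exists_aff (opn X U) hUf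
  obtain rfl : i2 = Ring.toIntAlgebra A := Subsingleton.elim _ _
  have : IsIso e.hom.left := inferInstanceAs (IsIso ((Over.forget _).map e.hom))
  have h1 : e.hom.left ≫ (opn X U).hom = (aff ℤ A).hom := Over.w e.hom
  have h2 : Flat (aff ℤ A).hom := by
    rw [← h1]
    infer_instance
  have h3 : (algebraMap ℤ A).Flat := Flat.SpecMap_iff.1 h2
  have h4 : Module.Flat ℤ A := RingHom.flat_algebraMap_iff.1 h3
  have h5 : ∀ y : PrimeSpectrum A, (p : A) ∈ y.asIdeal := by
    intro y
    have h6 := hom_apply (e.hom ≫ opnMap X U) (y : (aff ℤ A).left)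
    have h7 : (e.hom ≫ opnMap X U).left (y : (aff ℤ A).left) ∈ fibSet X p := by
      rw [hcon]
      trivial
    change (p : ℤ) ∈ PrimeSpectrum.asIdeal (R := ℤ) (X.hom _) at h7
    rw [← h6] at h7
    have h8 : (p : ℤ) ∈ y.asIdeal.comap (algebraMap ℤ A) := h7
    rw [Ideal.mem_comap, eq_intCast, Int.cast_natCast] at h8
    exact h8
  have h6 : IsNilpotent (p : A) := by
    rw [nilpotent_iff_mem_prime]
    intro J hJ
    exact h5 ⟨J, hJ⟩
  obtain ⟨n, hn⟩ := h6
  have h7 : ((p : ℤ) ^ n) • (1 : A) = 0 := by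
    rw [zsmul_eq_mul, mul_one]
    push_cast
    exact hn
  have h8 : (1 : A) = 0 := by
    have h9 : (p : ℤ) ^ n ≠ 0 := pow_ne_zero _ (by exact_mod_cast hp.ne_zero)
    exact (smul_eq_zero.1 h7).resolve_left h9
  have h9 : Subsingleton A := subsingleton_of_zero_eq_one h8.symm
  have h10 : IsEmpty (PrimeSpectrum A) := inferInstance
  have h11 : Nonempty (opn X U).left := ⟨(⟨x, hxU⟩ : U)⟩
  obtain ⟨z⟩ := h11
  exact h10.false (e.inv.left z : (aff ℤ A).left)

/-- Flat integral schemes. -/
lemma flat_fibDim {d : ℕ} (X : Sch ℤ) (hX : LocallyOfFiniteType X.hom) [IsIntegral X.left]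
    [Flat X.hom] (h : topologicalKrullDim X.left ≤ (d + 1 : ℕ)) : FibDim d X :=
  ⟨h, fun p hp => dim_closed (fibSet X p) (isClosed_fibSet X p) (fibSet_ne_univ X hX hp) h⟩

section

variable {sep : Prop} {P : Sch ℤ → Prop} (hP : Bnd sep P)

include hP

/-- Domains over a prime field. -/
lemma char_p {d : ℕ} (hI : ∀ I : Ideal (MvPolynomial (Fin (d + 1)) ℤ),
      P (aff ℤ (MvPolynomial (Fin (d + 1)) ℤ ⧸ I))) (p : ℕ) [Fact p.Prime] (B : Type) [CommRing B]
    [inst : Algebra ℤ B] [Algebra.FiniteType ℤ B] [Algebra (ZMod p) B]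
    (hB : ringKrullDim B ≤ d) : P (aff ℤ B) := by
  obtain rfl : inst = Ring.toIntAlgebra B := Subsingleton.elim _ _
  have hft : Algebra.FiniteType ℤ (ZMod p) :=
    Algebra.FiniteType.of_surjective (Algebra.ofId ℤ (ZMod p)) (ZMod.intCast_surjective)
  have hF : P (aff ℤ (ZMod p)) := of_surj hP hI
    (aeval (fun _ => 0) : MvPolynomial (Fin (d + 1)) ℤ →ₐ[ℤ] ZMod p) (fun x => by
      obtain ⟨n, rfl⟩ := ZMod.intCast_surjective x
      exact ⟨C n, by rw [algHom_C, eq_intCast]⟩)
  have hQ := bnd_res (S := ZMod p) hP hF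
  have hs : IsScalarTower ℤ (ZMod p) B := IsScalarTower.of_algebraMap_eq' (RingHom.ext_int _ _)
  have h1 : Algebra.FiniteType (ZMod p) B :=
    Algebra.FiniteType.of_restrictScalars_finiteType ℤ (ZMod p) B
  have h3 : ∀ I : Ideal (MvPolynomial (Fin (d + 1)) (ZMod p)),
      P ((res ℤ (ZMod p)).obj (aff (ZMod p) (MvPolynomial (Fin (d + 1)) (ZMod p) ⧸ I))) := by
    intro I
    rw [res_aff ℤ (ZMod p)]
    let θ : MvPolynomial (Fin (d + 1)) ℤ →+* MvPolynomial (Fin (d + 1)) (ZMod p) ⧸ I :=
      (Ideal.Quotient.mk I).comp (map (Int.castRingHom (ZMod p)))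
    have hθ : Function.Surjective θ := Ideal.Quotient.mk_surjective.comp
      (map_surjective _ ZMod.intCast_surjective)
    exact of_surj hP hI (AlgHom.mk θ (fun n => by
      rw [eq_intCast, eq_intCast]
      exact map_intCast θ n)) hθ
  have h4 := closed_to_dim hQ h3 B hB
  rwa [res_aff ℤ (ZMod p)] at h4

/-- Affine schemes of dimension at most `d + 1` with fibres of dimension at most `d`. -/
lemma fibDim_affine {d : ℕ} (hI : ∀ I : Ideal (MvPolynomial (Fin (d + 1)) ℤ),
      P (aff ℤ (MvPolynomial (Fin (d + 1)) ℤ ⧸ I))) (A : Type) [CommRing A]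
    [inst : Algebra ℤ A] [Algebra.FiniteType ℤ A] (hA : FibDim d (aff ℤ A)) : P (aff ℤ A) := by
  obtain rfl : inst = Ring.toIntAlgebra A := Subsingleton.elim _ _
  refine noeth hP (fun B _ _ hB => p_empty hP B hB) fun p hp => ?_
  have hBft : @Algebra.FiniteType ℤ (A ⧸ p) _ _ (Ring.toIntAlgebra (A ⧸ p)) :=
    Algebra.FiniteType.of_surjective (Ideal.Quotient.mk p).toIntAlgHom Ideal.Quotient.mk_surjective
  have hBd : ringKrullDim (A ⧸ p) ≤ (d + 1 : ℕ) := by
    refine (ringKrullDim_quotient_le p).trans ?_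
    rw [← topDim_int]
    exact hA.total
  obtain ⟨q, hq⟩ := CharP.exists (A ⧸ p)
  rcases CharP.char_is_prime_or_zero (A ⧸ p) q with h0 | rfl
  · have : Fact q.Prime := ⟨h0⟩
    let _ : Algebra (ZMod q) (A ⧸ p) := ZMod.algebra _ q
    let i : aff ℤ (A ⧸ p) ⟶ aff ℤ A := affMap (Ideal.Quotient.mkₐ ℤ p)
    have hi : IsClosedImmersion i.left := closed_affMap _ (Ideal.Quotient.mkₐ_surjective ℤ p)
    have h1 := hA.of_inducing i i.left.isClosedEmbedding.isInducing
    have h2 : fibSet (aff ℤ (A ⧸ p)) q = Set.univ := by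
      rw [Set.eq_univ_iff_forall]
      intro x
      let y : PrimeSpectrum (A ⧸ p) := x
      change (q : ℤ) ∈ y.asIdeal.comap (algebraMap ℤ (A ⧸ p))
      rw [Ideal.mem_comap, eq_intCast, Int.cast_natCast, CharP.cast_eq_zero]
      exact Ideal.zero_mem _
    have h3 : ringKrullDim (A ⧸ p) ≤ d := by
      rw [← topDim_int]
      have h4 := h1.fibre q h0
      rw [h2] at h4
      have h5 := (Homeomorph.Set.univ (aff ℤ (A ⧸ p)).left).symm.isInducing.topologicalKrullDim_le
      exact h5.trans h4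
    have h6 := char_p hP hI q (A ⧸ p) h3
    exact ⟨1, one_ne_zero, q_away_one hP (A ⧸ p) (p_inst _ _ h6)⟩
  · have : CharZero (A ⧸ p) := CharP.charP_to_charZero _
    obtain ⟨w, hw, h3⟩ := domain_zero_sep hP hI (A ⧸ p) (dim_generic (A ⧸ p) (by
      refine hBd.trans (le_of_eq ?_)
      push_cast
      rfl))
    exact ⟨w, hw, p_inst _ _ h3⟩

/-- Schemes of dimension at most `d + 1` with fibres of dimension at most `d`. -/
theorem fibDim_all {d : ℕ} (hI : ∀ I : Ideal (MvPolynomial (Fin (d + 1)) ℤ),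
      P (aff ℤ (MvPolynomial (Fin (d + 1)) ℤ ⧸ I))) (X : Sch ℤ) (hX : FT sep X)
    (h : FibDim d X) : P X := by
  refine of_affine' (P := fun X => FibDim d X → P X) (sep := sep) ?_ ?_ ?_ X hX h
  · intro X Y hX e hPX hY
    refine hP.iso hX e (hPX ?_)
    obtain ⟨e⟩ := e
    have : IsIso e.hom.left := inferInstanceAs (IsIso ((Over.forget _).map e.hom))
    exact hY.of_inducing e.hom e.hom.left.isOpenEmbedding.isInducing
  · intro Z X U i j hX ht hZ hU hn
    refine hP.total i j hX ht (hZ ?_) (hU ?_)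
    · exact hn.of_inducing i (have := ht.closed; i.left.isClosedEmbedding.isInducing)
    · exact hn.of_inducing j (have := ht.opened; j.left.isOpenEmbedding.isInducing)
  · intro A _ _ _ hA
    exact fibDim_affine hP hI A hA

/-- **Flat integral schemes of dimension at most `d + 1` and tripartite hypergraphs.** -/
theorem flat_main {d : ℕ} (h : ∀ (a b : ℕ) (H : Finset (Fin a × Fin b × Fin (d + 2))),
      P (tripS ℤ H)) (X : Sch ℤ) (hX : FT sep X) [IsIntegral X.left] [Flat X.hom]
    (hd : topologicalKrullDim X.left ≤ (d + 1 : ℕ)) : P X :=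
  fibDim_all hP ((graded hP (d + 1)).2 fun a b T =>
    zero_one hP (fun x => ⟨x, Int.cast_id⟩) h a b T) X hX (flat_fibDim X hX.locallyOfFiniteType hd)

end

end Pool.Agent.Q27.BG2
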