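import Pool.Agent.Q27.BG.Dm

/-!
# Schemes of bounded dimension and trilinear forms, for separated schemes

The statements of `Pool.Agent.Q27.BG`, for properties of the separated schemes of finite type over the
integers as well.
-/

set_option autoImplicit false

namespace Pool.Agent.Q27.BG2

open MvPolynomial CategoryTheory AlgebraicGeometry TensorProduct NumberField
open Pool.Agent.Y116.UV Pool.Agent.Z125.UN Q54.CU Q54.ZE Pool.Agent.H920R2
open Pool.Agent.Q27.BG

variable {sep : Prop} {P : Sch ℤ → Prop} (hP : Bnd sep P)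

include hP

/-- localization at `1` -/
lemma q_away_one (B : Type) [CommRing B] [Algebra ℤ B] [Algebra.FiniteType ℤ B]
    (h : P (aff ℤ B)) : P (aff ℤ (Localization.Away (1 : B))) := by
  have e := IsLocalization.atUnits B (Submonoid.powers (1 : B)) (S := Localization.Away (1 : B))
    (by rintro _ ⟨n, rfl⟩; simp)
  exact iso_alg hP.toUni (e.restrictScalars ℤ) h

/-- isomorphic rings -/
lemma q_ringEquiv {B C : Type} [CommRing B] [Algebra ℤ B] [Algebra.FiniteType ℤ B] [CommRing C]
    [Algebra ℤ C] (e : B ≃+* C) (h : P (aff ℤ B)) : P (aff ℤ C) :=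
  iso_alg hP.toUni (AlgEquiv.ofRingEquiv (f := e) (by
    intro r
    rw [eq_intCast, eq_intCast, map_intCast])) h

/-- The polynomial ring over a prime field. -/
lemma q_poly_prime {n : ℕ} (p : ℕ) [Fact p.Prime] (h : P (aff ℤ (ZMod p))) {B : Type} [CommRing B]
    [Algebra ℤ B] (φ : MvPolynomial (Fin (n + 1)) ℤ →+* B) (hφ : Function.Surjective φ)
    (hp : (p : B) = 0) (hker : ∀ f, φ f = 0 → ∀ d, (p : ℤ) ∣ f.coeff d) : P (aff ℤ B) := by
  have : Algebra.FiniteType ℤ (ZMod p) :=
    Algebra.FiniteType.of_surjective (Algebra.ofId ℤ (ZMod p)) (ZMod.intCast_surjective)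
  have h1 : P (aff ℤ (MvPolynomial (Fin (n + 1)) (ZMod p))) := p_poly hP _ h
  let θ : MvPolynomial (Fin (n + 1)) ℤ →+* MvPolynomial (Fin (n + 1)) (ZMod p) :=
    map (Int.castRingHom (ZMod p))
  have hθ : Function.Surjective θ := map_surjective _ ZMod.intCast_surjective
  have hk : RingHom.ker θ = RingHom.ker φ := by
    ext f
    rw [RingHom.mem_ker, RingHom.mem_ker]
    constructor
    · intro hf
      have h2 : ∀ d, (p : ℤ) ∣ f.coeff d := by
        intro d
        have h3 := congrArg (MvPolynomial.coeff d) hf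
        rw [coeff_map, coeff_zero] at h3
        exact (ZMod.intCast_zmod_eq_zero_iff_dvd _ _).1 h3
      obtain ⟨g, rfl⟩ := (C_dvd_iff_dvd_coeff (p : ℤ) f).2 h2
      rw [map_mul]
      have h4 : φ (MvPolynomial.C (p : ℤ)) = 0 := by
        rw [show (MvPolynomial.C (p : ℤ) : MvPolynomial (Fin (n + 1)) ℤ) = (p : MvPolynomial _ ℤ) by
          simp, map_natCast, hp]
      rw [h4, zero_mul]
    · intro hf
      ext d
      rw [coeff_map, coeff_zero]
      exact (ZMod.intCast_zmod_eq_zero_iff_dvd _ _).2 (hker f hf d)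
  have : Algebra.FiniteType ℤ (MvPolynomial (Fin (n + 1)) (ZMod p)) :=
    Algebra.FiniteType.trans (S := ZMod p) inferInstance inferInstance
  exact q_ringEquiv hP (((RingHom.quotientKerEquivOfSurjective hθ).symm.trans
    (Ideal.quotEquivOfEq hk)).trans (RingHom.quotientKerEquivOfSurjective hφ)) h1

/-- finite rings -/
lemma q_finite (hF : ∀ (k : Type) [Field k] [Finite k], P (aff ℤ k)) (A : Type) [CommRing A]
    [Finite A] : P (aff ℤ A) := by
  have h1 : Module.Finite ℤ A := inferInstance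
  refine noeth hP (fun B _ _ hB => p_empty hP B hB) fun p hp => ?_
  have h2 : Finite (A ⧸ p) := Finite.of_surjective _ Ideal.Quotient.mk_surjective
  have h3 : IsField (A ⧸ p) := Finite.isField_of_domain (A ⧸ p)
  let _ : Field (A ⧸ p) := h3.toField
  refine ⟨1, one_ne_zero, q_away_one hP (A ⧸ p) ?_⟩
  exact p_inst _ _ (hF (A ⧸ p))

/-- **Closed subschemes of the affine line over the integers.** -/
theorem one_var_sep (hO : ∀ (K : Type) [Field K] [NumberField K], P (aff ℤ (𝓞 K)))
    (hF : ∀ (k : Type) [Field k] [Finite k], P (aff ℤ k)) (I : Ideal (MvPolynomial (Fin 1) ℤ)) :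
    P (aff ℤ (MvPolynomial (Fin 1) ℤ ⧸ I)) := by
  refine noeth hP (fun B _ _ hB => p_empty hP B hB) fun p hp => ?_
  let A := MvPolynomial (Fin 1) ℤ ⧸ I
  let B := A ⧸ p
  let φ : MvPolynomial (Fin 1) ℤ →+* B := (Ideal.Quotient.mk p).comp (Ideal.Quotient.mk I)
  have hφ : Function.Surjective φ :=
    Ideal.Quotient.mk_surjective.comp Ideal.Quotient.mk_surjective
  have hBft : @Algebra.FiniteType ℤ B _ _ (Ring.toIntAlgebra B) :=
    (Algebra.FiniteType.of_surjective (R := ℤ) (A := MvPolynomial (Fin 1) ℤ) φ.toIntAlgHom hφ)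
  by_cases hker : ∃ f, φ f = 0 ∧ f ≠ 0
  · obtain ⟨f, hf, hf0⟩ := hker
    obtain ⟨q, hq⟩ := CharP.exists B
    rcases CharP.char_is_prime_or_zero B q with h0 | rfl
    · have : Fact q.Prime := ⟨h0⟩
      refine ⟨1, one_ne_zero, q_away_one hP B ?_⟩
      by_cases hall : ∀ f, φ f = 0 → ∀ d, (q : ℤ) ∣ f.coeff d
      · exact q_poly_prime hP q (p_inst _ _ (hF (ZMod q))) φ hφ (CharP.cast_eq_zero B q) hall
      · push Not at hall
        obtain ⟨g, hg, d, hgd⟩ := hall
        let _ : Algebra (ZMod q) B := ZMod.algebra B q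
        let x : Fin 1 → B := fun i => φ (X i)
        have hx : ∀ f, aeval x (map (Int.castRingHom (ZMod q)) f) = φ f := by
          intro f
          have h1 : ((aeval x : MvPolynomial (Fin 1) (ZMod q) →ₐ[ZMod q] B) :
              MvPolynomial (Fin 1) (ZMod q) →+* B).comp (map (Int.castRingHom (ZMod q))) = φ := by
            apply MvPolynomial.ringHom_ext
            · intro a
              simp
            · intro i
              simp [x]
          exact congrArg (fun g : MvPolynomial (Fin 1) ℤ →+* B => g f) h1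
        have hs : Function.Surjective (aeval x : MvPolynomial (Fin 1) (ZMod q) → B) := by
          intro b
          obtain ⟨f, rfl⟩ := hφ b
          exact ⟨_, hx f⟩
        have h2 : map (Int.castRingHom (ZMod q)) g ≠ 0 := by
          intro h3
          have h4 := congrArg (MvPolynomial.coeff d) h3
          rw [coeff_map, coeff_zero] at h4
          exact hgd ((ZMod.intCast_zmod_eq_zero_iff_dvd _ _).1 h4)
        have h3 : Algebra.IsAlgebraic (ZMod q) B := alg_of_ker x hs _ h2 (by rw [hx, hg])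
        have h4 : Algebra.FiniteType (ZMod q) B := Algebra.FiniteType.of_surjective (aeval x) hs
        have h5 : Algebra.IsIntegral (ZMod q) B := inferInstance
        have h6 : Module.Finite (ZMod q) B := Algebra.IsIntegral.finite
        have h7 : Finite B := Module.finite_of_finite (ZMod q)
        exact p_inst _ _ (q_finite hP hF B)
    · have : CharZero B := CharP.charP_to_charZero B
      let x : Fin 1 → B := fun i => φ (X i)
      have hx : ∀ f : MvPolynomial (Fin 1) ℤ, @aeval ℤ B (Fin 1) _ _ (Ring.toIntAlgebra B) x f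
          = φ f := by
        intro f
        let _ : Algebra ℤ B := Ring.toIntAlgebra B
        have h1 : ((aeval x : MvPolynomial (Fin 1) ℤ →ₐ[ℤ] B) :
            MvPolynomial (Fin 1) ℤ →+* B) = φ := by
          apply MvPolynomial.ringHom_ext
          · intro a
            simp
          · intro i
            simp [x]
        exact congrArg (fun g : MvPolynomial (Fin 1) ℤ →+* B => g f) h1
      have h3 : @Algebra.IsAlgebraic ℤ B _ _ (Ring.toIntAlgebra B) := by
        let _ : Algebra ℤ B := Ring.toIntAlgebra B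
        exact alg_of_ker x (fun b => by
          obtain ⟨f, rfl⟩ := hφ b
          exact ⟨f, hx f⟩) f hf0 (by rw [hx, hf])
      obtain ⟨K, _, _, m, hm, ⟨e⟩⟩ := exists_order B
      refine ⟨(m : B), hm, ?_⟩
      have h4 : Algebra.FiniteType ℤ (𝓞 K) := inferInstance
      have h5 : Finite (𝓞 K ⧸ Ideal.span {(m : 𝓞 K)}) := by
        refine Ring.HasFiniteQuotients.finiteQuotient ?_
        rw [Ne, Ideal.span_singleton_eq_bot]
        intro h6
        apply hm
        rw [Int.cast_eq_zero] at h6 ⊢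
        exact h6
      exact q_ringEquiv hP e (ring_open hP (m : 𝓞 K) (p_inst _ _ (q_finite hP hF _)) (hO K))
  · push Not at hker
    refine ⟨1, one_ne_zero, q_away_one hP B ?_⟩
    have hinj : Function.Injective φ := by
      rw [injective_iff_map_eq_zero]
      exact hker
    exact q_ringEquiv hP (RingEquiv.ofBijective φ ⟨hinj, hφ⟩) (hP.space 1)

/-- Open parts of domains of characteristic zero. -/
lemma domain_zero_sep {n : ℕ} (h : ∀ I : Ideal (MvPolynomial (Fin (n + 1)) ℤ),
    P (aff ℤ (MvPolynomial (Fin (n + 1)) ℤ ⧸ I))) (B : Type) [CommRing B] [IsDomain B] [CharZero B]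
    [Algebra.FiniteType ℤ B] (hd : ringKrullDim (B ⊗[ℤ] ℚ) ≤ n) :
    ∃ w : B, w ≠ 0 ∧ P (aff ℤ (Localization.Away w)) := by
  obtain ⟨x, hx⟩ := coords_zero B hd
  obtain ⟨w, hw, φ, g, h1, h2⟩ := exists_emb' x (R := ℤ) (B := B) (fun y => by
    obtain ⟨P, Q, h3, h4⟩ := hx y
    refine ⟨P, Q, ?_, ?_⟩
    · rwa [aeval_int_eq _ (Ring.toIntAlgebra _)] at h3 ⊢
    · rwa [aeval_int_eq _ (Ring.toIntAlgebra _), aeval_int_eq _ (Ring.toIntAlgebra _) x P] at h4 ⊢)
  exact ⟨w, hw, p_emb hP h φ g h1 h2⟩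

/-- From affine schemes to all schemes of dimension at most `D`. -/
lemma dim_of_affine_sep {D : ℕ} (h : ∀ (A : Type) [CommRing A] [Algebra ℤ A]
    [Algebra.FiniteType ℤ A], ringKrullDim A ≤ D → P (aff ℤ A)) (X : Sch ℤ) (hX : FT sep X)
    (hn : topologicalKrullDim X.left ≤ D) : P X := by
  refine of_affine' (P := fun X => topologicalKrullDim X.left ≤ D → P X) (sep := sep) ?_ ?_ ?_ X
    hX hn
  · intro X Y hX e hPX hY
    refine hP.iso hX e (hPX ?_)
    obtain ⟨e⟩ := e
    let f := (Over.forget _).mapIso e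
    exact (Topology.IsInducing.topologicalKrullDim_le
      (Scheme.homeoOfIso f).isInducing).trans hY
  · intro Z X U i j hX ht hZ hU hn
    refine hP.total i j hX ht (hZ ?_) (hU ?_)
    · have h1 := (have := ht.closed; i.left.isClosedEmbedding.isInducing)
      exact h1.topologicalKrullDim_le.trans hn
    · have h1 := (have := ht.opened; j.left.isOpenEmbedding.isInducing)
      exact h1.topologicalKrullDim_le.trans hn
  · intro A _ _ _ hA
    rw [topDim_int] at hA
    exact h A hA

/-- From regular schemes to affine schemes of dimension at most `D`. -/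
lemma dim_regular_sep {D : ℕ} (h : ∀ X : Sch ℤ, FT sep X → IsRegularSch X.left →
    topologicalKrullDim X.left ≤ D → P X) (A : Type) [CommRing A] [inst : Algebra ℤ A]
    [Algebra.FiniteType ℤ A] (hA : ringKrullDim A ≤ D) : P (aff ℤ A) := by
  obtain rfl : inst = Ring.toIntAlgebra A := Subsingleton.elim _ _
  refine noeth hP (fun B _ _ hB => p_empty hP B hB) fun p hp => ?_
  have hBft : @Algebra.FiniteType ℤ (A ⧸ p) _ _ (Ring.toIntAlgebra (A ⧸ p)) :=
    Algebra.FiniteType.of_surjective (Ideal.Quotient.mk p).toIntAlgHom Ideal.Quotient.mk_surjective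
  obtain ⟨w, hw, h1⟩ := exists_regular (A ⧸ p)
  refine ⟨w, hw, h _ (ft_aff sep) (reg_aff h1) ?_⟩
  rw [topDim_int]
  exact (dim_away w).trans ((ringKrullDim_quotient_le p).trans hA)

/-- Affine schemes over a prime field. -/
lemma prime_field_sep {D : ℕ} (p : ℕ) [Fact p.Prime] (hF : P (aff ℤ (ZMod p)))
    (h : ∀ (a b : ℕ) (H : Finset (Fin a × Fin b × Fin (D + 2))), P (aff ℤ (Trip (ZMod p) H)))
    (B : Type) [CommRing B] [inst : Algebra ℤ B] [Algebra.FiniteType ℤ B] [Algebra (ZMod p) B]
    (hB : ringKrullDim B ≤ D) : P (aff ℤ B) := by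
  obtain rfl : inst = Ring.toIntAlgebra B := Subsingleton.elim _ _
  have hft : Algebra.FiniteType ℤ (ZMod p) :=
    Algebra.FiniteType.of_surjective (Algebra.ofId ℤ (ZMod p)) (ZMod.intCast_surjective)
  have hQ := bnd_res (S := ZMod p) hP hF
  have hs : IsScalarTower ℤ (ZMod p) B := IsScalarTower.of_algebraMap_eq' (RingHom.ext_int _ _)
  have h1 : Algebra.FiniteType (ZMod p) B :=
    Algebra.FiniteType.of_restrictScalars_finiteType ℤ (ZMod p) B
  have h2 : ∀ (a b : ℕ) (T : Fin a → Fin b → Fin (D + 2) → ZMod p),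
      P ((res ℤ (ZMod p)).obj (hypS T)) := zero_one hQ ZMod.intCast_surjective (fun a b H => by
    have h3 := h a b H
    rw [← res_aff ℤ (ZMod p)] at h3
    exact h3)
  have h3 := (graded hQ (D + 1)).2 h2
  have h4 := closed_to_dim hQ h3 B hB
  rwa [res_aff ℤ (ZMod p)] at h4

/-- From trilinear forms to affine schemes of dimension at most `D`. -/
lemma forms_to_affine_sep {D : ℕ}
    (h1 : ∀ (a b : ℕ) (H : Finset (Fin a × Fin b × Fin (D + 1))), P (tripS ℤ H))
    (h2 : ∀ (p : ℕ) [Fact p.Prime] (a b : ℕ) (H : Finset (Fin a × Fin b × Fin (D + 2))),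
      P (aff ℤ (Trip (ZMod p) H))) (A : Type) [CommRing A] [inst : Algebra ℤ A]
    [Algebra.FiniteType ℤ A] (hA : ringKrullDim A ≤ D) : P (aff ℤ A) := by
  have hI := (graded hP D).2 fun a b T => zero_one hP (fun x => ⟨x, Int.cast_id⟩) h1 a b T
  obtain rfl : inst = Ring.toIntAlgebra A := Subsingleton.elim _ _
  refine noeth hP (fun B _ _ hB => p_empty hP B hB) fun p hp => ?_
  have hBft : @Algebra.FiniteType ℤ (A ⧸ p) _ _ (Ring.toIntAlgebra (A ⧸ p)) :=
    Algebra.FiniteType.of_surjective (Ideal.Quotient.mk p).toIntAlgHom Ideal.Quotient.mk_surjective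
  have hBd : ringKrullDim (A ⧸ p) ≤ D := (ringKrullDim_quotient_le p).trans hA
  obtain ⟨q, hq⟩ := CharP.exists (A ⧸ p)
  rcases CharP.char_is_prime_or_zero (A ⧸ p) q with h0 | rfl
  · have : Fact q.Prime := ⟨h0⟩
    let _ : Algebra (ZMod q) (A ⧸ p) := ZMod.algebra _ q
    have hF : P (aff ℤ (ZMod q)) := of_surj hP hI
      (aeval (fun _ => 0) : MvPolynomial (Fin D) ℤ →ₐ[ℤ] ZMod q) (fun x => by
        obtain ⟨n, rfl⟩ := ZMod.intCast_surjective x
        exact ⟨C n, by rw [algHom_C, eq_intCast]⟩)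
    have h3 := prime_field_sep hP q hF (h2 q) (A ⧸ p) hBd
    exact ⟨1, one_ne_zero, q_away_one hP (A ⧸ p) (p_inst _ _ h3)⟩
  · have : CharZero (A ⧸ p) := CharP.charP_to_charZero _
    rcases D with _ | n
    · exfalso
      have h3 : ringKrullDim (A ⧸ p) ≤ (0 : ℕ) := hBd
      rw [← Ring.krullDimLE_iff] at h3
      exact not_isField (A ⧸ p) (fun n hn => Int.cast_eq_zero.1 hn)
        Ring.KrullDimLE.isField_of_isDomain
    · obtain ⟨w, hw, h3⟩ := domain_zero_sep hP hI (A ⧸ p) (dim_generic (A ⧸ p) (by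
        refine hBd.trans (le_of_eq ?_)
        push_cast
        rfl))
      exact ⟨w, hw, p_inst _ _ h3⟩

/-- From affine schemes of dimension at most `D` to trilinear forms over the integers. -/
lemma aff_to_forms_sep {D : ℕ} (h : ∀ (A : Type) [CommRing A] [Algebra ℤ A]
      [Algebra.FiniteType ℤ A], ringKrullDim A ≤ D → P (aff ℤ A)) {a b c : ℕ}
    (T : Fin a → Fin b → Fin c → ℤ) (hT : a ≤ D + 1 ∨ b ≤ D + 1 ∨ c ≤ D + 1) : P (hypS T) := by
  refine of_block hP (fun a b c' hc T => to_tri hP (N := D) (fun I => ?_) a b c' hc T) T hT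
  by_cases hI : I = ⊥
  · subst hI
    exact iso_alg hP.toUni (AlgEquiv.quotientBot ℤ _).symm (hP.space D)
  · exact h _ (dim_quot_int I hI)

/-- From affine schemes of dimension at most `D` to trilinear forms over finite fields. -/
lemma aff_to_forms_field_sep {D : ℕ} (k : Type) [Field k] [Finite k] (h : ∀ (A : Type) [CommRing A]
      [Algebra k A] [Algebra.FiniteType k A], ringKrullDim A ≤ D → P (aff ℤ A)) {a b c : ℕ}
    (T : Fin a → Fin b → Fin c → k) (hT : a ≤ D + 2 ∨ b ≤ D + 2 ∨ c ≤ D + 2) :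
    P (aff ℤ (Hyp T)) := by
  have hmf : Module.Finite ℤ k := inferInstance
  have hft : Algebra.FiniteType ℤ k := inferInstance
  have hF : P (aff ℤ k) := h k (by
    rw [ringKrullDim_eq_zero_of_field]
    exact_mod_cast Nat.zero_le D)
  have hQ := bnd_res (S := k) hP hF
  have h1 : P ((res ℤ k).obj (hypS T)) := by
    refine of_block hQ (fun a b c' hc T => to_tri hQ (N := D + 1)
      (dim_to_closed hQ (fun A _ _ _ hA => ?_)) a b c' hc T) T hT
    have hs : IsScalarTower ℤ k A := IsScalarTower.of_algebraMap_eq' (RingHom.ext_int _ _)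
    rw [res_aff]
    exact h A hA
  rw [hypS, res_aff] at h1
  exact h1

/-- **Schemes of dimension at most `D` and trilinear forms.** -/
theorem dim_main_sep (D : ℕ) : List.TFAE
    [∀ X : Sch ℤ, FT sep X → IsRegularSch X.left → topologicalKrullDim X.left ≤ D → P X,
      ∀ X : Sch ℤ, FT sep X → topologicalKrullDim X.left ≤ D → P X,
      (∀ (a b : ℕ) (H : Finset (Fin a × Fin b × Fin (D + 1))), P (tripS ℤ H)) ∧
        ∀ (p : ℕ) [Fact p.Prime] (a b : ℕ) (H : Finset (Fin a × Fin b × Fin (D + 2))),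
          P (aff ℤ (Trip (ZMod p) H)),
      (∀ (a b c : ℕ) (T : Fin a → Fin b → Fin c → ℤ), a ≤ D + 1 ∨ b ≤ D + 1 ∨ c ≤ D + 1 →
          P (hypS T)) ∧
        ∀ (k : Type) [Field k] [Finite k] (a b c : ℕ) (T : Fin a → Fin b → Fin c → k),
          a ≤ D + 2 ∨ b ≤ D + 2 ∨ c ≤ D + 2 → P (aff ℤ (Hyp T))] := by
  tfae_have 1 → 2 := fun h => dim_of_affine_sep hP (fun A _ _ _ hA => dim_regular_sep hP h A hA)
  tfae_have 2 → 1 := fun h X hX _ hn => h X hX hn
  tfae_have 2 → 4 := by
    intro h
    have h1 : ∀ (A : Type) [CommRing A] [Algebra ℤ A] [Algebra.FiniteType ℤ A],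
        ringKrullDim A ≤ D → P (aff ℤ A) := by
      intro A _ _ _ hA
      refine h _ (ft_aff sep) ?_
      rw [topDim_int]
      exact hA
    refine ⟨fun a b c T hT => aff_to_forms_sep hP h1 T hT, fun k _ _ a b c T hT => ?_⟩
    refine aff_to_forms_field_sep hP k (fun A _ _ _ hA => ?_) T hT
    have hmf : Module.Finite ℤ k := inferInstance
    have hs : IsScalarTower ℤ k A := IsScalarTower.of_algebraMap_eq' (RingHom.ext_int _ _)
    have hft : Algebra.FiniteType ℤ A := Algebra.FiniteType.trans (S := k) inferInstance inferInstance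
    exact h1 A hA
  tfae_have 4 → 3 := by
    rintro ⟨h1, h2⟩
    refine ⟨fun a b H => ?_, fun p _ a b H => ?_⟩
    · have h3 := h1 a b (D + 1) (fun i j k => if (i, j, k) ∈ H then (1 : ℤ) else 0)
        (Or.inr (Or.inr le_rfl))
      unfold hypS Hyp at h3
      rw [tri_ind] at h3
      exact h3
    · have h3 := h2 (ZMod p) a b (D + 2) (fun i j k => if (i, j, k) ∈ H then (1 : ZMod p) else 0)
        (Or.inr (Or.inr le_rfl))
      unfold Hyp at h3
      rw [tri_ind] at h3
      exact h3
  tfae_have 3 → 2 := fun h => dim_of_affine_sep hP (fun A _ _ _ hA =>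
    forms_to_affine_sep hP h.1 (fun p _ => h.2 p) A hA)
  tfae_finish

/-- **Schemes of dimension at most one.** -/
theorem dim_one_sep (hO : ∀ (K : Type) [Field K] [NumberField K], P (aff ℤ (𝓞 K)))
    (hF : ∀ (k : Type) [Field k] [Finite k], P (aff ℤ k))
    (hC : ∀ (p : ℕ) [Fact p.Prime] (A : Type) [CommRing A] [Algebra (ZMod p) A]
      [Algebra.Smooth (ZMod p) A], ringKrullDim A ≤ 1 → P (aff ℤ A)) (A : Type) [CommRing A]
    [inst : Algebra ℤ A] [Algebra.FiniteType ℤ A] (hA : ringKrullDim A ≤ (1 : ℕ)) :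
    P (aff ℤ A) := by
  obtain rfl : inst = Ring.toIntAlgebra A := Subsingleton.elim _ _
  refine noeth hP (fun B _ _ hB => p_empty hP B hB) fun p hp => ?_
  have hBft : @Algebra.FiniteType ℤ (A ⧸ p) _ _ (Ring.toIntAlgebra (A ⧸ p)) :=
    Algebra.FiniteType.of_surjective (Ideal.Quotient.mk p).toIntAlgHom Ideal.Quotient.mk_surjective
  have hBd : ringKrullDim (A ⧸ p) ≤ (1 : ℕ) := (ringKrullDim_quotient_le p).trans hA
  obtain ⟨q, hq⟩ := CharP.exists (A ⧸ p)
  rcases CharP.char_is_prime_or_zero (A ⧸ p) q with h0 | rfl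
  · have : Fact q.Prime := ⟨h0⟩
    let _ : Algebra (ZMod q) (A ⧸ p) := ZMod.algebra _ q
    have h1 : Algebra.FiniteType (ZMod q) (A ⧸ p) := by
      have : IsScalarTower ℤ (ZMod q) (A ⧸ p) :=
        IsScalarTower.of_algebraMap_eq' (RingHom.ext_int _ _)
      exact Algebra.FiniteType.of_restrictScalars_finiteType ℤ (ZMod q) (A ⧸ p)
    obtain ⟨w, hw, hs⟩ := exists_smooth (k := ZMod q) (A ⧸ p)
    refine ⟨w, hw, p_inst _ _ (hC q (Localization.Away w) ?_)⟩
    exact (dim_away w).trans (by exact_mod_cast hBd)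
  · have : CharZero (A ⧸ p) := CharP.charP_to_charZero _
    obtain ⟨w, hw, h3⟩ := domain_zero_sep hP (n := 0) (one_var_sep hP hO hF) (A ⧸ p)
      (dim_generic (A ⧸ p) (by
        refine hBd.trans (le_of_eq ?_)
        simp))
    exact ⟨w, hw, p_inst _ _ h3⟩

end Pool.Agent.Q27.BG2
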